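import Pool.Agent.N483.KM.StmS
import Pool.Agent.R751.MB.Lin
import Pool.Agent.R751.MB.Ten

/-!
# Project KM, part LORB (helper300): the weight `exp (-t)` on the Lorentz cones

The cone is the image of the product of `exp (-‖x‖) dx` and `exp (-t) dt` under the map
`(x, t) ↦ (x, t + ‖x‖)`, which is the limit of the smooth maps `(x, t) ↦ (x, t + √(‖x‖² + δ))`
with Lipschitz constant at most 2.
-/

set_option autoImplicit false

namespace Pool.Agent.N300.KM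

open MeasureTheory Set Filter Topology ProbabilityTheory
open scoped ENNReal InnerProductSpace
open Pool.Agent.R751.MB (Eu EW VW Adm LCn AP S_SYM)
open Pool.Agent.R751.MB.Ten
open Pool.Agent.N483.KM

variable {κ κ₁ κ₂ : Type} [Fintype κ] [Fintype κ₁] [Fintype κ₂]

theorem EW_nonneg {w : Eu κ → ℝ} (hw : Adm w) {v : Eu κ → ℝ} (hv : ∀ x, 0 ≤ v x) : 0 ≤ EW w v :=
  div_nonneg (integral_nonneg fun x => mul_nonneg (hv x) (hw.nonneg x)) hw.pos.le

theorem ap_mono {A B : ℝ} (hAB : A ≤ B) {w : Eu κ → ℝ} (h : AP A w) : AP B w := by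
  obtain ⟨S, h1, h2⟩ := h.poi
  refine ⟨h.adm, S, h1, fun f hf hb hd => (h2 f hf hb hd).trans ?_⟩
  exact mul_le_mul_of_nonneg_right hAB (EW_nonneg h.adm fun x => sq_nonneg _)

/-- functions of at most linear growth are square integrable -/
theorem memLp {w : Eu κ → ℝ} (hw : Adm w) {X : Eu κ → ℝ} (hX : Continuous X) {C : ℝ}
    (hC : ∀ x, |X x| ≤ C * ‖x‖) : MemLp X 2 (mu w) := by
  rw [memLp_two_iff_integrable_sq hX.aestronglyMeasurable]
  refine mu_integrable hw (hX.pow 2) (C := C ^ 2) fun x => ?_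
  rw [abs_pow]
  calc |X x| ^ 2 ≤ (C * ‖x‖) ^ 2 := pow_le_pow_left₀ (abs_nonneg _) (hC x) 2
    _ = C ^ 2 * ‖x‖ ^ 2 := by ring
    _ ≤ _ := mul_le_mul_of_nonneg_left (by linarith) (sq_nonneg _)

theorem VW_var {w : Eu κ → ℝ} (hw : Adm w) {X : Eu κ → ℝ} (hX : MemLp X 2 (mu w)) :
    VW w X = Var[X; mu w] := by
  have := mu_prob hw
  rw [VW_mu hw, variance_eq_sub hX]
  rfl

/-- the variance for product weights -/
theorem VW_W {κ₃ : Type} [Fintype κ₃] (e : (Eu κ₁ × Eu κ₂) ≃L[ℝ] Eu κ₃) {w : Eu κ₁ → ℝ}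
    {u : Eu κ₂ → ℝ} (hw : Adm w) (hu : Adm u) {X : Eu κ₁ → ℝ} {Y : Eu κ₂ → ℝ}
    (hX : MemLp X 2 (mu w)) (hY : MemLp Y 2 (mu u)) {F : Eu κ₃ → ℝ}
    (hF : ∀ x y, F (e (x, y)) = X x + Y y) : VW (W e w u) F = VW w X + VW u Y := by
  have := mu_prob hw
  have := mu_prob hu
  rw [VW_var hw hX, VW_var hu hY, ← variance_add_prod hX hY, variance_eq_sub]
  · unfold VW
    rw [EW_W e hw hu, EW_W e hw hu]
    have h1 : ∀ p : Eu κ₁ × Eu κ₂, F (e p) = X p.1 + Y p.2 := fun p => hF p.1 p.2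
    simp only [h1]
    rfl
  · exact (hX.comp_fst (mu u)).add (hY.comp_snd (mu w))

theorem VW_nonneg {w : Eu κ → ℝ} (hw : Adm w) {X : Eu κ → ℝ} (hX : MemLp X 2 (mu w)) :
    0 ≤ VW w X := by
  rw [VW_var hw hX]
  exact variance_nonneg _ _

/-! ### the weight `exp (-‖x‖)` -/

/-- the weight `exp (-‖x‖)` -/
noncomputable def vv (k : ℕ) : Eu (Fin k) → ℝ := fun x => Real.exp (-‖x‖)

/-- the weight `exp (-t)` on the half line -/
noncomputable def uu : Eu (Fin 1) → ℝ := fun x => if 0 ≤ x 0 then Real.exp (-x 0) else 0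

theorem lc_vv (k : ℕ) : LCn (vv k) := by
  intro x y t h0 h1
  unfold vv
  rw [← Real.exp_mul, ← Real.exp_mul, ← Real.exp_add, Real.exp_le_exp]
  have h2 : ‖(1 - t) • x + t • y‖ ≤ (1 - t) * ‖x‖ + t * ‖y‖ := by
    refine (norm_add_le _ _).trans ?_
    rw [norm_smul, norm_smul, Real.norm_of_nonneg h0.le, Real.norm_of_nonneg (by linarith)]
  linarith

theorem ap_vv (hS : S_SYM) (h3 : S_GMO) : ∃ A : ℝ, 0 < A ∧ ∀ k : ℕ, 1 ≤ k → AP A (vv k) := by
  obtain ⟨A, hA, H⟩ := hS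
  refine ⟨A, hA, fun k hk => H k (vv k) hk (h3 k hk).1 (lc_vv k) ?_⟩
  intro σ x y hxy
  unfold vv
  congr 2
  rw [EuclideanSpace.norm_eq, EuclideanSpace.norm_eq]
  congr 1
  rw [← Equiv.sum_comp σ fun i => ‖x i‖ ^ 2]
  apply Finset.sum_congr rfl
  intro i _
  rw [Real.norm_eq_abs, Real.norm_eq_abs, hxy i]

theorem vw_vv (h3 : S_GMO) {k : ℕ} (hk : 1 ≤ k) (b : Eu (Fin k)) (s : ℝ) :
    MemLp (fun x : Eu (Fin k) => ⟪x, b⟫_ℝ + ‖x‖ * s) 2 (mu (vv k)) ∧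
    VW (vv k) (fun x => ⟪x, b⟫_ℝ + ‖x‖ * s) = (k + 1) * ‖b‖ ^ 2 + k * s ^ 2 := by
  obtain ⟨ha, hb, hc, hd⟩ := h3 k hk
  change Adm (vv k) at ha
  have hb1 := (hb b).1
  have hb2 := (hb b).2
  change EW (vv k) _ = _ at hb1 hb2 hc hd
  have hbd : ∀ x : Eu (Fin k), |⟪x, b⟫_ℝ + ‖x‖ * s| ≤ (‖b‖ + |s|) * ‖x‖ := by
    intro x
    calc |⟪x, b⟫_ℝ + ‖x‖ * s| ≤ |⟪x, b⟫_ℝ| + |‖x‖ * s| := abs_add_le _ _
      _ ≤ ‖x‖ * ‖b‖ + ‖x‖ * |s| := by
        rw [abs_mul, abs_norm]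
        exact add_le_add (abs_real_inner_le_norm _ _) le_rfl
      _ = _ := by ring
  have hX : MemLp (fun x : Eu (Fin k) => ⟪x, b⟫_ℝ + ‖x‖ * s) 2 (mu (vv k)) :=
    memLp ha (by fun_prop) hbd
  refine ⟨hX, ?_⟩
  have i1 : Integrable (fun x : Eu (Fin k) => ⟪x, b⟫_ℝ) (mu (vv k)) := by
    refine mu_integrable ha (by fun_prop) (C := ‖b‖) fun x => ?_
    refine (abs_real_inner_le_norm _ _).trans ?_
    rw [mul_comm]
    exact mul_le_mul_of_nonneg_left (by nlinarith [sq_nonneg (‖x‖ - 1)]) (norm_nonneg _)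
  have i2 : Integrable (fun x : Eu (Fin k) => ⟪x, b⟫_ℝ ^ 2) (mu (vv k)) := by
    refine mu_integrable ha (by fun_prop) (C := ‖b‖ ^ 2) fun x => ?_
    rw [abs_pow]
    calc |⟪x, b⟫_ℝ| ^ 2 ≤ (‖x‖ * ‖b‖) ^ 2 :=
          pow_le_pow_left₀ (abs_nonneg _) (abs_real_inner_le_norm _ _) 2
      _ = ‖b‖ ^ 2 * ‖x‖ ^ 2 := by ring
      _ ≤ _ := mul_le_mul_of_nonneg_left (by linarith) (sq_nonneg _)
  have i3 : Integrable (fun x : Eu (Fin k) => ‖x‖) (mu (vv k)) := by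
    refine mu_integrable ha (by fun_prop) (C := 1) fun x => ?_
    rw [abs_norm, one_mul]
    nlinarith [sq_nonneg (‖x‖ - 1)]
  have i4 : Integrable (fun x : Eu (Fin k) => ‖x‖ ^ 2) (mu (vv k)) := by
    refine mu_integrable ha (by fun_prop) (C := 1) fun x => ?_
    rw [abs_pow, abs_norm, one_mul]
    linarith
  have i5 : Integrable (fun x : Eu (Fin k) => ⟪x, b⟫_ℝ * ‖x‖) (mu (vv k)) := by
    refine mu_integrable ha (by fun_prop) (C := ‖b‖) fun x => ?_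
    rw [abs_mul, abs_norm]
    calc |⟪x, b⟫_ℝ| * ‖x‖ ≤ (‖x‖ * ‖b‖) * ‖x‖ :=
          mul_le_mul_of_nonneg_right (abs_real_inner_le_norm _ _) (norm_nonneg _)
      _ = ‖b‖ * ‖x‖ ^ 2 := by ring
      _ ≤ _ := mul_le_mul_of_nonneg_left (by linarith) (norm_nonneg _)
  have e5 : ∫ x, ⟪x, b⟫_ℝ * ‖x‖ ∂(mu (vv k)) = 0 := by
    rw [mu_integral ha]
    unfold EW
    have h1 := integral_neg_eq_self (fun x : Eu (Fin k) => ⟪x, b⟫_ℝ * ‖x‖ * vv k x) volume
    have h2 : ∀ x : Eu (Fin k), ⟪-x, b⟫_ℝ * ‖-x‖ * vv k (-x) = -(⟪x, b⟫_ℝ * ‖x‖ * vv k x) := by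
      intro x
      unfold vv
      rw [norm_neg, inner_neg_left]
      ring
    simp only [h2, integral_neg] at h1
    rw [show (∫ x : Eu (Fin k), ⟪x, b⟫_ℝ * ‖x‖ * vv k x) = 0 by linarith, zero_div]
  rw [← mu_integral ha] at hb1 hb2 hc hd
  rw [VW_mu ha]
  have e1 : ∫ x, (⟪x, b⟫_ℝ + ‖x‖ * s) ∂(mu (vv k)) = k * s := by
    rw [integral_add i1 (i3.mul_const s), integral_mul_const, hb1, hc, zero_add]
  have e2 : ∫ x, (⟪x, b⟫_ℝ + ‖x‖ * s) ^ 2 ∂(mu (vv k)) =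
      (k + 1) * ‖b‖ ^ 2 + k * (k + 1) * s ^ 2 := by
    have h4 : ∀ x : Eu (Fin k), (⟪x, b⟫_ℝ + ‖x‖ * s) ^ 2 =
        ⟪x, b⟫_ℝ ^ 2 + ⟪x, b⟫_ℝ * ‖x‖ * (2 * s) + ‖x‖ ^ 2 * s ^ 2 := fun x => by ring
    have i6 : Integrable (fun x : Eu (Fin k) => ⟪x, b⟫_ℝ ^ 2 + ⟪x, b⟫_ℝ * ‖x‖ * (2 * s))
        (mu (vv k)) := i2.add (i5.mul_const _)
    simp only [h4]
    rw [integral_add i6 (i4.mul_const _), integral_add i2 (i5.mul_const _),
      integral_mul_const, integral_mul_const, hb2, hd, e5]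
    ring
  rw [e1, e2]
  ring

theorem vw_uu (ha : Adm uu) (c : Eu (Fin 1)) :
    MemLp (fun t : Eu (Fin 1) => ⟪t, c⟫_ℝ) 2 (mu uu) ∧
    VW uu (fun t => ⟪t, c⟫_ℝ) = VW uu (fun t => t 0) * ‖c‖ ^ 2 := by
  refine ⟨memLp ha (by fun_prop) (C := ‖c‖) fun t => ?_, ?_⟩
  · rw [mul_comm]
    exact abs_real_inner_le_norm _ _
  · have h1 : ∀ t : Eu (Fin 1), ⟪t, c⟫_ℝ = c 0 * t 0 := by
      intro t
      rw [PiLp.inner_apply]
      simp
    have h2 : ‖c‖ ^ 2 = c 0 ^ 2 := by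
      rw [EuclideanSpace.norm_sq_eq]
      simp
    rw [h2, VW_mu ha, VW_mu ha]
    simp only [h1, mul_pow]
    rw [integral_const_mul, integral_const_mul]
    ring


/-! ### the change of variables -/

/-- the unit vector of the last coordinate -/
noncomputable def e1 : Eu (Fin 1) := EuclideanSpace.single 0 1

theorem e1_zero : e1 0 = 1 := by simp [e1]

theorem norm_e1 : ‖e1‖ = 1 := by simp [e1]

/-- the shear `(x, t) ↦ (x, t + ‖x‖)` -/
noncomputable def Sh (k : ℕ) (p : Eu (Fin k) × Eu (Fin 1)) : Eu (Fin k) × Eu (Fin 1) :=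
  (p.1, p.2 + ‖p.1‖ • e1)

theorem cont_Sh (k : ℕ) : Continuous (Sh k) := by
  unfold Sh
  fun_prop

/-- the shear as a homeomorphism -/
noncomputable def ShH (k : ℕ) : (Eu (Fin k) × Eu (Fin 1)) ≃ₜ (Eu (Fin k) × Eu (Fin 1)) where
  toFun := Sh k
  invFun p := (p.1, p.2 - ‖p.1‖ • e1)
  left_inv p := by simp [Sh]
  right_inv p := by simp [Sh]
  continuous_toFun := cont_Sh k
  continuous_invFun := by fun_prop

theorem emb_Sh (k : ℕ) : MeasurableEmbedding (Sh k) := (ShH k).measurableEmbedding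

theorem mp_Sh (k : ℕ) : MeasurePreserving (Sh k)
    ((volume : Measure (Eu (Fin k))).prod (volume : Measure (Eu (Fin 1))))
    ((volume : Measure (Eu (Fin k))).prod (volume : Measure (Eu (Fin 1)))) := by
  refine MeasurePreserving.skew_product (f := fun x => x) (MeasurePreserving.id _)
    (g := fun (x : Eu (Fin k)) (t : Eu (Fin 1)) => t + ‖x‖ • e1) ?_ ?_
  · exact (by fun_prop : Continuous fun p : Eu (Fin k) × Eu (Fin 1) => p.2 + ‖p.1‖ • e1).measurable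
  · exact Eventually.of_forall fun x => map_add_right_eq_self volume (‖x‖ • e1)

section change

variable {k : ℕ} (j : WithLp 2 (Eu (Fin k) × Eu (Fin 1)) ≃ₗᵢ[ℝ] Eu κ)

/-- the projection to the first factor -/
noncomputable def pr : Eu κ →L[ℝ] Eu (Fin k) :=
  (ContinuousLinearMap.fst ℝ (Eu (Fin k)) (Eu (Fin 1))).comp
    ((JJ j).symm : Eu κ →L[ℝ] Eu (Fin k) × Eu (Fin 1))

theorem pr_apply (z : Eu κ) : pr j z = ((JJ j).symm z).1 := rfl

theorem norm_pr (z : Eu κ) : ‖pr j z‖ ≤ ‖z‖ := by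
  have h1 : pr j z = (j.symm z).fst := rfl
  have h2 := norm_symm j z
  rw [h1]
  nlinarith [norm_nonneg z, norm_nonneg (j.symm z).fst, sq_nonneg ‖(j.symm z).snd‖]

/-- the unit vector in the direction of the axis -/
noncomputable def ax : Eu κ := JJ j (0, e1)

theorem norm_JJ (x : Eu (Fin k)) (y : Eu (Fin 1)) : ‖JJ j (x, y)‖ ^ 2 = ‖x‖ ^ 2 + ‖y‖ ^ 2 := by
  rw [JJ_apply, j.norm_map, WithLp.prod_norm_sq_eq_of_L2]
  rfl

theorem norm_ax : ‖ax j‖ = 1 := by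
  have h1 := norm_JJ j 0 e1
  rw [norm_zero, norm_e1] at h1
  have h2 : ‖ax j‖ ^ 2 = 1 := by
    rw [ax, h1]
    norm_num
  nlinarith [norm_nonneg (ax j)]

/-- the map `(x, t) ↦ (x, t + √(‖x‖² + δ))` -/
noncomputable def Ps (δ : ℝ) (z : Eu κ) : Eu κ := z + √(‖pr j z‖ ^ 2 + δ) • ax j

theorem Ps_zero (p : Eu (Fin k) × Eu (Fin 1)) : Ps j 0 (JJ j p) = JJ j (Sh k p) := by
  unfold Ps Sh
  have h1 : (p.1, p.2 + ‖p.1‖ • e1) = p + ‖p.1‖ • ((0 : Eu (Fin k)), e1) := by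
    ext1 <;> simp
  rw [h1, map_add, map_smul, pr_apply, ContinuousLinearEquiv.symm_apply_apply, add_zero,
    Real.sqrt_sq (norm_nonneg _)]
  rfl

/-- the weight on the cone -/
noncomputable def wL : Eu κ → ℝ := wl (JJ j).toLinearEquiv

theorem wL_Sh (p : Eu (Fin k) × Eu (Fin 1)) : wL j (JJ j (Sh k p)) = vv k p.1 * uu p.2 := by
  unfold wL wl
  have h1 : (JJ j).toLinearEquiv.symm (JJ j (Sh k p)) = Sh k p :=
    (JJ j).toLinearEquiv.symm_apply_apply (Sh k p)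
  rw [h1]
  unfold Sh vv uu
  simp only [PiLp.add_apply, PiLp.smul_apply, e1_zero, smul_eq_mul, mul_one]
  by_cases h : 0 ≤ p.2 0
  · rw [if_pos h, if_pos (by linarith), ← Real.exp_add]
    congr 1
    ring
  · rw [if_neg h, if_neg (by linarith), mul_zero]

theorem wL_int (G : Eu κ → ℝ) :
    ∫ z, G z * wL j z = ∫ z, G (Ps j 0 z) * W (JJ j) (vv k) uu z := by
  obtain ⟨c, hc, h1, -⟩ := haar (JJ j)
  rw [h1, h1, ← (mp_Sh k).integral_comp (emb_Sh k)]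
  simp only [wL_Sh, W_e, Ps_zero]

theorem wL_one : ∫ z, wL j z = ∫ z, W (JJ j) (vv k) uu z := by
  have h1 := wL_int j fun _ => 1
  simpa using h1

theorem EW_wL (G : Eu κ → ℝ) : EW (wL j) G = EW (W (JJ j) (vv k) uu) fun z => G (Ps j 0 z) := by
  unfold EW
  rw [wL_int, wL_one]

theorem VW_wL (G : Eu κ → ℝ) : VW (wL j) G = VW (W (JJ j) (vv k) uu) fun z => G (Ps j 0 z) := by
  unfold VW
  rw [EW_wL, EW_wL]

theorem adm_wL (hv : Adm (vv k)) (hu : Adm uu) : Adm (wL j) where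
  nonneg z := by
    unfold wL wl
    split_ifs
    · exact (Real.exp_pos _).le
    · exact le_rfl
  meas := by
    unfold wL wl
    have h1 : Continuous fun z : Eu κ => (JJ j).toLinearEquiv.symm z := (JJ j).symm.continuous
    refine Measurable.ite (measurableSet_le ?_ ?_) ?_ measurable_const
    · exact (continuous_norm.comp (continuous_fst.comp h1)).measurable
    · exact (by fun_prop : Continuous fun p : Eu (Fin k) × Eu (Fin 1) => p.2 0).measurable.comp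
        h1.measurable
    · exact (by fun_prop : Continuous fun p : Eu (Fin k) × Eu (Fin 1) =>
        Real.exp (-p.2 0)).measurable.comp h1.measurable
  pos := by
    rw [wL_one]
    exact (adm_W (JJ j) hv hu).pos
  int := by
    obtain ⟨c, hc, -, h2⟩ := haar (JJ j)
    apply h2
    rw [← (mp_Sh k).integrable_comp_emb (emb_Sh k)]
    have h3 : ((fun p => (1 + ‖JJ j p‖ ^ 2) * wL j (JJ j p)) ∘ Sh k) =
        fun p => (1 + ‖JJ j (Sh k p)‖ ^ 2) * (vv k p.1 * uu p.2) := by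
      funext p
      simp only [Function.comp_apply, wL_Sh]
    rw [h3]
    have hm : AEStronglyMeasurable (fun p : Eu (Fin k) × Eu (Fin 1) =>
        (1 + ‖JJ j (Sh k p)‖ ^ 2) * (vv k p.1 * uu p.2))
        ((volume : Measure (Eu (Fin k))).prod (volume : Measure (Eu (Fin 1)))) := by
      have m1 : Measurable fun p : Eu (Fin k) × Eu (Fin 1) => (1 + ‖JJ j (Sh k p)‖ ^ 2) :=
        (continuous_const.add ((((JJ j).continuous.comp (cont_Sh k)).norm).pow 2)).measurable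
      exact (m1.mul ((hv.meas.comp measurable_fst).mul
        (hu.meas.comp measurable_snd))).aestronglyMeasurable
    refine ((hv.int.mul_prod hu.int).const_mul 3).mono' hm (Eventually.of_forall fun p => ?_)
    have a1 : 0 ≤ vv k p.1 * uu p.2 := mul_nonneg (hv.nonneg _) (hu.nonneg _)
    rw [Real.norm_of_nonneg (mul_nonneg (by positivity) a1)]
    have a2 : ‖JJ j (Sh k p)‖ ^ 2 = ‖p.1‖ ^ 2 + ‖p.2 + ‖p.1‖ • e1‖ ^ 2 := norm_JJ j _ _
    have a3 : ‖p.2 + ‖p.1‖ • e1‖ ≤ ‖p.2‖ + ‖p.1‖ := by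
      refine (norm_add_le _ _).trans ?_
      rw [norm_smul, norm_e1, mul_one, norm_norm]
    have a4 : ‖p.2 + ‖p.1‖ • e1‖ ^ 2 ≤ (‖p.2‖ + ‖p.1‖) ^ 2 :=
      pow_le_pow_left₀ (norm_nonneg _) a3 2
    have a5 : 1 + ‖JJ j (Sh k p)‖ ^ 2 ≤ 3 * ((1 + ‖p.1‖ ^ 2) * (1 + ‖p.2‖ ^ 2)) := by
      rw [a2]
      nlinarith [sq_nonneg (‖p.2‖ - ‖p.1‖), mul_nonneg (sq_nonneg ‖p.1‖) (sq_nonneg ‖p.2‖)]
    calc (1 + ‖JJ j (Sh k p)‖ ^ 2) * (vv k p.1 * uu p.2) ≤
        (3 * ((1 + ‖p.1‖ ^ 2) * (1 + ‖p.2‖ ^ 2))) * (vv k p.1 * uu p.2) :=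
          mul_le_mul_of_nonneg_right a5 a1
      _ = _ := by ring

/-! ### regularisation -/

theorem sqrt_lip {a b δ : ℝ} (hb : 0 ≤ b) (hδ : 0 ≤ δ) :
    √(a ^ 2 + δ) ≤ √(b ^ 2 + δ) + |a - b| := by
  have h1 : b ≤ √(b ^ 2 + δ) := by
    apply Real.le_sqrt_of_sq_le
    linarith
  have h2 := Real.sq_sqrt (by positivity : 0 ≤ b ^ 2 + δ)
  apply Real.sqrt_le_iff.2
  refine ⟨by positivity, ?_⟩
  have h3 : a - b ≤ |a - b| := le_abs_self _
  have h4 : |a - b| ^ 2 = (a - b) ^ 2 := sq_abs _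
  have h5 := abs_nonneg (a - b)
  nlinarith [mul_nonneg h5 (sub_nonneg.2 h1), mul_nonneg hb (sub_nonneg.2 h3)]

theorem sqrt_lip' {a b δ : ℝ} (ha : 0 ≤ a) (hb : 0 ≤ b) (hδ : 0 ≤ δ) :
    |√(a ^ 2 + δ) - √(b ^ 2 + δ)| ≤ |a - b| := by
  rw [abs_le]
  constructor
  · have h1 := sqrt_lip (a := b) (b := a) ha hδ
    rw [abs_sub_comm] at h1
    linarith
  · have h1 := sqrt_lip (a := a) (b := b) hb hδ
    linarith

theorem lip_Ps {δ : ℝ} (hδ : 0 ≤ δ) : LipschitzWith 2 (Ps j δ) := by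
  apply LipschitzWith.of_dist_le_mul
  intro z z'
  rw [dist_eq_norm, dist_eq_norm]
  have h1 : Ps j δ z - Ps j δ z' = (z - z') +
      (√(‖pr j z‖ ^ 2 + δ) - √(‖pr j z'‖ ^ 2 + δ)) • ax j := by
    unfold Ps
    rw [sub_smul]
    abel
  rw [h1]
  refine (norm_add_le _ _).trans ?_
  rw [norm_smul, norm_ax, mul_one, Real.norm_eq_abs]
  have h2 := sqrt_lip' (norm_nonneg (pr j z)) (norm_nonneg (pr j z')) hδ
  have h3 : |‖pr j z‖ - ‖pr j z'‖| ≤ ‖z - z'‖ := by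
    refine (abs_norm_sub_norm_le _ _).trans ?_
    rw [← map_sub]
    exact norm_pr j _
  have h4 : ((2 : NNReal) : ℝ) = 2 := rfl
  rw [h4]
  linarith

theorem cd_Ps {δ : ℝ} (hδ : 0 < δ) : ContDiff ℝ 1 (Ps j δ) := by
  unfold Ps
  refine contDiff_id.add (ContDiff.smul (ContDiff.sqrt ?_ fun z => by positivity) contDiff_const)
  exact ((pr j).contDiff.norm_sq ℝ).add contDiff_const

theorem fd_Ps {δ : ℝ} (hδ : 0 < δ) {F : Eu κ → ℝ} (hF : ContDiff ℝ 1 F) (z : Eu κ) :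
    ‖fderiv ℝ (fun z => F (Ps j δ z)) z‖ ≤ 2 * ‖fderiv ℝ F (Ps j δ z)‖ := by
  have h1 : fderiv ℝ (fun z => F (Ps j δ z)) z =
      (fderiv ℝ F (Ps j δ z)).comp (fderiv ℝ (Ps j δ) z) :=
    fderiv_comp z (hF.differentiable one_ne_zero _)
      ((cd_Ps j hδ).differentiable one_ne_zero _)
  rw [h1, mul_comm]
  refine (ContinuousLinearMap.opNorm_comp_le _ _).trans ?_
  refine mul_le_mul_of_nonneg_left ?_ (norm_nonneg _)
  exact norm_fderiv_le_of_lipschitz ℝ (lip_Ps j hδ.le)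

theorem lim_Ps (z : Eu κ) :
    Tendsto (fun m : ℕ => Ps j (1 / ((m : ℝ) + 1)) z) atTop (𝓝 (Ps j 0 z)) := by
  unfold Ps
  refine tendsto_const_nhds.add (Tendsto.smul ?_ tendsto_const_nhds)
  exact (Real.continuous_sqrt.tendsto _).comp
    (tendsto_const_nhds.add tendsto_one_div_add_atTop_nhds_zero_nat)

theorem lim_EW {w : Eu κ → ℝ} (hw : Adm w) {G : Eu κ → ℝ} (hG : Continuous G) {C : ℝ}
    (hC : ∀ z, |G z| ≤ C) :
    Tendsto (fun m : ℕ => EW w fun z => G (Ps j (1 / ((m : ℝ) + 1)) z)) atTop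
      (𝓝 (EW w fun z => G (Ps j 0 z))) := by
  have := mu_prob hw
  simp only [← mu_integral hw]
  refine tendsto_integral_of_dominated_convergence (fun _ => C) ?_ (integrable_const C) ?_ ?_
  · intro m
    exact (hG.comp (lip_Ps j (by positivity)).continuous).aestronglyMeasurable
  · intro m
    exact Eventually.of_forall fun z => hC _
  · exact Eventually.of_forall fun z => (hG.tendsto _).comp (lim_Ps j z)

theorem EW_mono {w : Eu κ → ℝ} (hw : Adm w) {G H : Eu κ → ℝ} (hG : Continuous G)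
    (hH : Continuous H) {C : ℝ} (hGC : ∀ z, |G z| ≤ C) (hHC : ∀ z, |H z| ≤ C)
    (h : ∀ z, G z ≤ H z) : EW w G ≤ EW w H := by
  have := mu_prob hw
  rw [← mu_integral hw, ← mu_integral hw]
  exact integral_mono (ib hG.measurable hGC) (ib hH.measurable hHC) h

theorem ps_wL {P : ℝ} (hP : 0 ≤ P) (hv : Adm (vv k)) (hu : Adm uu)
    (h : PS P (W (JJ j) (vv k) uu)) : PS (4 * P) (wL j) := by
  refine ⟨adm_wL j hv hu, ?_⟩
  rintro F hF ⟨B, hB⟩ ⟨L, hL⟩
  have hw := h.adm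
  have hB0 : 0 ≤ B := (abs_nonneg _).trans (hB 0)
  have hL0 : 0 ≤ L := (norm_nonneg _).trans (hL 0)
  rw [VW_wL, EW_wL]
  have hFc : Continuous F := hF.continuous
  have hdc : Continuous fun z => ‖fderiv ℝ F z‖ ^ 2 :=
    ((hF.continuous_fderiv one_ne_zero).norm).pow 2
  have hdb : ∀ z, |‖fderiv ℝ F z‖ ^ 2| ≤ L ^ 2 := fun z => by
    rw [abs_pow, abs_norm]
    exact pow_le_pow_left₀ (norm_nonneg _) (hL z) 2
  have l1 := lim_EW j hw hFc hB
  have l2 := lim_EW j hw (hFc.pow 2) (C := B ^ 2) fun z => by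
    rw [Pi.pow_apply, abs_pow]
    exact pow_le_pow_left₀ (abs_nonneg _) (hB z) 2
  have l3 := lim_EW j hw hdc hdb
  have l4 : Tendsto (fun m : ℕ => VW (W (JJ j) (vv k) uu)
      fun z => F (Ps j (1 / ((m : ℝ) + 1)) z)) atTop
      (𝓝 (VW (W (JJ j) (vv k) uu) fun z => F (Ps j 0 z))) := l2.sub (l1.pow 2)
  refine le_of_tendsto_of_tendsto' l4 (l3.const_mul (4 * P)) fun m => ?_
  have hm : (0 : ℝ) < 1 / ((m : ℝ) + 1) := by positivity
  set δ : ℝ := 1 / ((m : ℝ) + 1)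
  have hcd : ContDiff ℝ 1 fun z => F (Ps j δ z) := hF.comp (cd_Ps j hm)
  have hfd := fd_Ps j hm hF
  have h1 := h.poi (fun z => F (Ps j δ z)) hcd ⟨B, fun z => hB _⟩
    ⟨2 * L, fun z => (hfd z).trans (mul_le_mul_of_nonneg_left (hL _) zero_le_two)⟩
  have h2 : EW (W (JJ j) (vv k) uu) (fun z => ‖fderiv ℝ (fun z => F (Ps j δ z)) z‖ ^ 2) ≤
      EW (W (JJ j) (vv k) uu) (fun z => 4 * ‖fderiv ℝ F (Ps j δ z)‖ ^ 2) := by
    have b1 : ∀ z, ‖fderiv ℝ (fun z => F (Ps j δ z)) z‖ ^ 2 ≤ 4 * ‖fderiv ℝ F (Ps j δ z)‖ ^ 2 := by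
      intro z
      calc ‖fderiv ℝ (fun z => F (Ps j δ z)) z‖ ^ 2 ≤ (2 * ‖fderiv ℝ F (Ps j δ z)‖) ^ 2 :=
            pow_le_pow_left₀ (norm_nonneg _) (hfd z) 2
        _ = _ := by ring
    have b2 : ∀ z, |4 * ‖fderiv ℝ F (Ps j δ z)‖ ^ 2| ≤ 4 * L ^ 2 := fun z => by
      rw [abs_mul, abs_of_pos (by norm_num : (0 : ℝ) < 4)]
      exact mul_le_mul_of_nonneg_left (hdb _) (by norm_num)
    refine EW_mono hw (((hcd.continuous_fderiv one_ne_zero).norm).pow 2)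
      (continuous_const.mul (hdc.comp (lip_Ps j hm.le).continuous)) (C := 4 * L ^ 2) ?_ b2 b1
    intro z
    rw [abs_of_nonneg (by positivity)]
    exact (b1 z).trans ((le_abs_self _).trans (b2 z))
  have h3 : EW (W (JJ j) (vv k) uu) (fun z => 4 * ‖fderiv ℝ F (Ps j δ z)‖ ^ 2) =
      4 * EW (W (JJ j) (vv k) uu) (fun z => ‖fderiv ℝ F (Ps j δ z)‖ ^ 2) := by
    rw [← mu_integral hw, ← mu_integral hw, integral_const_mul]
  calc _ ≤ _ := h1
    _ ≤ P * (4 * EW (W (JJ j) (vv k) uu) (fun z => ‖fderiv ℝ F (Ps j δ z)‖ ^ 2)) := by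
      rw [← h3]
      exact mul_le_mul_of_nonneg_left h2 hP
    _ = _ := by ring

end change

/-! ### the result -/

/-- the case without a first factor -/
def e3 : Eu (Fin 1) ≃ₗ[ℝ] (Eu (Fin 0) × Eu (Fin 1)) where
  toFun t := (0, t)
  invFun p := p.2
  map_add' s t := by simp
  map_smul' c t := by simp
  left_inv t := rfl
  right_inv p := by
    ext1
    · exact Subsingleton.elim _ _
    · rfl

theorem lorb (hS : S_SYM) (hL : Pool.Agent.R751.MB.S_LIN) (hT : Pool.Agent.R751.MB.S_TEN)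
    (h0 : S_CPS) (h1 : S_CAP) (h2 : S_RAY) (h3 : S_GMO) : S_LORB := by
  obtain ⟨A1, hA1, H1⟩ := ap_vv hS h3
  obtain ⟨A2, hA2, H2⟩ := h2
  change AP A2 uu at H2
  set A := max A1 A2 with hA
  have hA0 : 0 < A := lt_max_of_lt_left hA1
  have hu : Adm uu := H2.adm
  set σ := VW uu (fun t => t 0) with hσ
  set M := max 1 σ with hM
  have hM1 : 1 ≤ M := le_max_left _ _
  have hMσ : σ ≤ M := le_max_right _ _
  refine ⟨8 * A * M, by positivity, fun k κ _ e => ?_⟩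
  rcases Nat.eq_zero_or_pos k with rfl | hk
  · -- the half line
    have h4 := hL (Fin 1) κ _ (e3.trans e) uu H2
    have h5 : (fun z => uu ((e3.trans e).symm z)) = wl e := by
      funext z
      have h6 : (e3.trans e).symm z = (e.symm z).2 := rfl
      have h7 : (e.symm z).1 = 0 := Subsingleton.elim _ _
      rw [h6]
      unfold wl uu
      rw [h7, norm_zero]
    rw [h5] at h4
    refine ap_mono ?_ h4
    have h8 : A2 ≤ A := le_max_right _ _
    nlinarith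
  · obtain ⟨j⟩ := exists_j e
    have hv : Adm (vv k) := (h3 k hk).1
    have hk1 : (1 : ℝ) ≤ k := by exact_mod_cast hk
    have hAW : AP A (W (JJ j) (vv k) uu) :=
      hT _ _ _ A (JJ j).toLinearEquiv (vv k) uu hA0.le (ap_mono (le_max_left _ _) (H1 k hk))
        (ap_mono (le_max_right _ _) H2)
    have hPW : PS (A * ((k + 1) * M)) (W (JJ j) (vv k) uu) := by
      refine h0 κ A ((k + 1) * M) _ hA0.le (by positivity) hAW fun θ => ?_
      obtain ⟨m1, v1⟩ := vw_vv h3 hk (j.symm θ).fst 0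
      obtain ⟨m2, v2⟩ := vw_uu hu (j.symm θ).snd
      rw [VW_W (JJ j) hv hu m1 m2 (fun x y => by rw [inner_JJ, mul_zero, add_zero]), v1, v2,
        ← norm_symm j θ, ← hσ]
      have b1 := sq_nonneg ‖(j.symm θ).fst‖
      have b2 := sq_nonneg ‖(j.symm θ).snd‖
      have b3 : (k + 1) * ‖(j.symm θ).fst‖ ^ 2 ≤ (k + 1) * M * ‖(j.symm θ).fst‖ ^ 2 := by
        apply mul_le_mul_of_nonneg_right _ b1
        nlinarith
      have b4 : σ * ‖(j.symm θ).snd‖ ^ 2 ≤ (k + 1) * M * ‖(j.symm θ).snd‖ ^ 2 := by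
        apply mul_le_mul_of_nonneg_right _ b2
        nlinarith
      nlinarith
    have hPL := ps_wL j (by positivity) hv hu hPW
    have hAL : AP (8 * A * M) (wL j) := by
      refine h1 κ _ ((k + 1) / 2) _ _ (by positivity) (by positivity) (le_of_eq (by ring)) hPL
        fun θ => ?_
      rw [VW_wL]
      obtain ⟨m1, v1⟩ := vw_vv h3 hk (j.symm θ).fst ((j.symm θ).snd 0)
      obtain ⟨m2, v2⟩ := vw_uu hu (j.symm θ).snd
      rw [VW_W (JJ j) hv hu m1 m2 (fun x y => ?_), v1, ← norm_symm j θ]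
      · have b0 := VW_nonneg hu m2
        have b2 : ‖(j.symm θ).snd‖ ^ 2 = (j.symm θ).snd 0 ^ 2 := by
          rw [EuclideanSpace.norm_sq_eq]
          simp
        rw [b2]
        nlinarith [sq_nonneg ‖(j.symm θ).fst‖, sq_nonneg ((j.symm θ).snd 0)]
      · rw [Ps_zero]
        unfold Sh
        simp only
        rw [inner_JJ, inner_add_left, inner_smul_left]
        have b3 : ⟪e1, (j.symm θ).snd⟫_ℝ = (j.symm θ).snd 0 := by
          rw [PiLp.inner_apply]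
          simp [e1_zero]
        rw [b3]
        simp
        ring
    have h5 := hL κ κ _ ((JJ j).toLinearEquiv.symm.trans e) (wL j) hAL
    have h6 : (fun z => wL j (((JJ j).toLinearEquiv.symm.trans e).symm z)) = wl e := by
      funext z
      unfold wL wl
      simp
    rwa [h6] at h5

end Pool.Agent.N300.KM
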