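import Pool.Agent.N300.KM.LorA
import Pool.Agent.R751.MB.Gen
import Pool.Agent.R751.MB.Wht
import Pool.Agent.R80.MB.Sym
import Pool.Agent.Results.MP_6d896a_gt.OneSymmetric

/-!
# Project KM, part LORB (helper300): the weight `exp (-t)` on the Lorentz cones, final theorem
-/

set_option autoImplicit false

namespace Pool.Agent.N300.KM

open Pool.Agent.N483.KM

theorem pSYM : Pool.Agent.R751.MB.S_SYM := by
  obtain ⟨C, hC, H⟩ := Pool.Agent.Results.MP_6d896a_gt.OneSymmetric.result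
  exact Pool.Agent.R80.MB.sym ⟨C, hC, fun n hn ρ h1 h2 h3 h4 => H n hn ρ ⟨h1, h2, h3, h4⟩⟩
    Pool.Agent.R751.MB.wht Pool.Agent.R751.MB.gen

/-- LORB -/
theorem t_LORB (h0 : S_CPS) (h1 : S_CAP) (h2 : S_RAY) (h3 : S_GMO) : S_LORB :=
  lorb pSYM Pool.Agent.R751.MB.lin Pool.Agent.R751.MB.ten h0 h1 h2 h3

end Pool.Agent.N300.KM
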